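import Mathlib
import Pool.Agent.H77.TO.Law

set_option autoImplicit false

/-!
# Repunits: the number of primes has order `log n` if a positive proportion of the LAST digits are ones

Fix a base `b ≥ 2`, for instance `b = 10`. For a sequence `d` of digits and sequences `w`, `κ` let
`N b w κ d l = w (κ l) + b ^ κ l * ∑ i < l, d i * b ^ i` be the number whose last `κ l` digits are those of
`w (κ l)` and whose other digits are `d (l - 1), ..., d 1, d 0`. For the repunits `w k = R b k` the last `κ l`
digits are ones, and for `d = 1, 1, 1, ...` we get the repunit with `κ l + l` digits. We prove that there is a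
monotone sequence `κ` with `l / L ≤ κ l ≤ l / 2` such that for every sequence `w` of prescribed last blocks (`w k`
has at most `k` digits and is prime to `b`), in particular for the repunits, and for almost every sequence `d` of
independent uniformly distributed digits (Haar almost every `b`-adic integer `... d 2 d 1 d 0`) the number of the
`l ≤ n` with `N b w κ d l` prime has the order of magnitude `log n`, as conjectured for the repunits.

In the earlier results for this problem (library) the digits behind a positive proportion of prescribed FIRST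
digits are random, or all digits but a bounded number of last digits. Prescribed last digits need primes in
classes modulo `b ^ k` for `k` of the order of the number of all digits.

Proof. First moment: a bound of Linnik's type for the primes in the classes modulo the powers of `b` (`linb`,
helper7; the analytic part is in the library; real characters modulo `b ^ k` have conductor at most `4 b`). Second
moment, for given `d 0, ..., d (m - 1)` and the `l` in `(2 m, 32 K m]`: Selberg's sieve for one and two linear
forms (library) and the mean square of `r / φ(r)` (helper43). Strong law for the digits (helper94).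
-/

namespace Pool.Agent.Results.MP_adea1b_nt.TrailingRepunitLaw

open MeasureTheory Filter

/-- The repunit with `k` digits in base `b`. -/
def R (b k : ℕ) : ℕ := ∑ i ∈ Finset.range k, b ^ i

/-- Independent uniformly distributed digits in base `b`. -/
noncomputable def digits (b : ℕ) : Measure (ℕ → Fin b) :=
  Measure.infinitePi (fun _ : ℕ => ProbabilityTheory.uniformOn (Set.univ : Set (Fin b)))

/-- The last `κ l` digits are those of `w (κ l)`, the other digits are `d (l - 1), ..., d 1, d 0`. -/
def N (b : ℕ) (w κ : ℕ → ℕ) (d : ℕ → Fin b) (l : ℕ) : ℕ :=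
  w (κ l) + b ^ κ l * ∑ i ∈ Finset.range l, (d i : ℕ) * b ^ i

/-- The number of the `l` with `1 ≤ l ≤ n` for which `N b w κ d l` is prime. -/
def M (b : ℕ) (w κ : ℕ → ℕ) (d : ℕ → Fin b) (n : ℕ) : ℕ :=
  ((Finset.Icc 1 n).filter (fun l => (N b w κ d l).Prime)).card

lemma R_succ (b k : ℕ) : R b (k + 1) = R b k + b ^ k := Finset.sum_range_succ _ _

lemma R_lt {b : ℕ} (hb : 2 ≤ b) (k : ℕ) : R b k < b ^ k := by
  induction k with
  | zero => simp [R]
  | succ k ih =>
    rw [R_succ, pow_succ]
    nlinarith

lemma R_coprime {b k : ℕ} (hk : 1 ≤ k) : (R b k).Coprime b := by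
  obtain ⟨j, rfl⟩ : ∃ j, k = j + 1 := ⟨k - 1, by omega⟩
  have h : R b (j + 1) = 1 + b * R b j := by
    unfold R
    rw [Finset.sum_range_succ', Finset.mul_sum, pow_zero, add_comm]
    congr 1
    exact Finset.sum_congr rfl fun i _ => by rw [pow_succ']
  rw [h]
  exact (Nat.coprime_add_mul_left_left 1 b _).2 (Nat.coprime_one_left b)

lemma R_add (b k l : ℕ) : R b (k + l) = R b k + b ^ k * R b l := by
  unfold R
  rw [Finset.sum_range_add, Finset.mul_sum]
  congr 1
  exact Finset.sum_congr rfl fun i _ => pow_add _ _ _

/-- Let `b ≥ 2`. (1) The repunits are admissible blocks, and the sequence of digits `1, 1, 1, ...` gives the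
repunits. (2) There are a monotone `κ` with `l / L ≤ κ l ≤ l / 2` and `c, C > 0` such that for every sequence `w`
of prescribed last blocks, in particular for the repunits, and for almost every sequence `d` of digits the number
of the `l ≤ n` with `N b w κ d l` prime lies between `c log n` and `C log n` for all large `n`. -/
theorem result (b : ℕ) (hb : 2 ≤ b) :
    ((∀ k, 1 ≤ k → R b k < b ^ k ∧ (R b k).Coprime b) ∧
      ∀ (κ : ℕ → ℕ) (l : ℕ), N b (R b) κ (fun _ => ⟨1, hb⟩) l = R b (κ l + l)) ∧
    ∃ (L : ℕ) (κ : ℕ → ℕ) (c C : ℝ), 0 < c ∧ 0 < C ∧ Monotone κ ∧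
      (∀ l, 3 ≤ l → l ≤ L * κ l ∧ 2 * κ l ≤ l) ∧
      ∀ w : ℕ → ℕ, (∀ k, 1 ≤ k → w k < b ^ k ∧ (w k).Coprime b) →
      ∀ᵐ d ∂(digits b), ∀ᶠ n : ℕ in atTop,
        c * Real.log n ≤ M b w κ d n ∧ (M b w κ d n : ℝ) ≤ C * Real.log n := by
  have : NeZero b := ⟨by omega⟩
  refine ⟨⟨fun k hk => ⟨R_lt hb k, R_coprime hk⟩, fun κ l => ?_⟩, ?_⟩
  · unfold N
    rw [R_add]
    congr 2
    unfold R
    exact Finset.sum_congr rfl fun i _ => by simp
  · obtain ⟨H, c, C, hH, hc, hC, h⟩ := Pool.Agent.H77.TO.law b hb
    refine ⟨2 * H, Pool.Agent.H77.TO.kap H, c, C, hc, hC, Pool.Agent.H77.TO.kap_mono hH,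
      fun l hl => Pool.Agent.H77.TO.kap_bounds hH hl, fun w hw => ?_⟩
    exact h w hw

end Pool.Agent.Results.MP_adea1b_nt.TrailingRepunitLaw
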